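import Pool.Agent.Y916.Om.PBox

/-!
# `p`-adic logarithms of integers which are `p`-adically close to `S`-units: one cell
-/

set_option autoImplicit false

open Module

namespace Pool.Agent.L5helper52.NS

open Pool.Agent.Y921.PW Pool.Agent.Y916.Om

section

variable {p : ℕ} [Fact p.Prime] {A : Type} [NormedField A] [NormedAlgebra ℚ_[p] A] [CharZero A]

/-- the logarithm of `u + g p^(e + f)` relative to the cell `e`, `u * u'` -/
theorem log_cell {L : A → A} (hL : Iw p L) {e f u u' g : ℕ} (he : 1 ≤ e) (hU : ¬ p ∣ u * u') :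
    L ((u + g * p ^ (e + f) : ℕ) : A) = L (u : A) + lval p A e (u * u') (g * u' * p ^ f) := by
  have hu0 : u ≠ 0 := by
    rintro rfl
    exact hU (by simp)
  have hu0' : u' ≠ 0 := by
    rintro rfl
    exact hU (by simp)
  have h1 := hL.shift he hU (g * u' * p ^ f)
  have h2 : u * u' + g * u' * p ^ f * p ^ e = (u + g * p ^ (e + f)) * u' := by
    rw [pow_add]
    ring
  rw [h2, Nat.cast_mul, hL.mul _ _ (natCast_ne p (by omega)) (natCast_ne p hu0'), Nat.cast_mul u u',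
    hL.mul _ _ (natCast_ne p hu0) (natCast_ne p hu0')] at h1
  rw [lval]
  linear_combination h1

theorem log_one {L : A → A} (hL : Iw p L) : L 1 = 0 := by
  have h := hL.mul 1 1 one_ne_zero one_ne_zero
  rw [mul_one] at h
  linear_combination -h

theorem log_pow {L : A → A} (hL : Iw p L) {x : A} (hx : x ≠ 0) (m : ℕ) : L (x ^ m) = m * L x := by
  induction m with
  | zero => rw [pow_zero, log_one hL, Nat.cast_zero, zero_mul]
  | succ m ih =>
    rw [pow_succ, hL.mul _ _ (pow_ne_zero m hx) hx, ih]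
    push_cast
    ring

/-- the logarithm of a product of powers -/
theorem log_prod {L : A → A} (hL : Iw p L) {r : ℕ} (q m : Fin r → ℕ) (hq : ∀ i, q i ≠ 0) :
    L ((∏ i, q i ^ m i : ℕ) : A) = ∑ i, (m i : A) * L (q i : A) := by
  classical
  have h : ∀ s : Finset (Fin r), L ((∏ i ∈ s, q i ^ m i : ℕ) : A) = ∑ i ∈ s, (m i : A) * L (q i : A) := by
    intro s
    induction s using Finset.induction_on with
    | empty => rw [Finset.prod_empty, Finset.sum_empty, Nat.cast_one, log_one hL]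
    | insert i s hi ih =>
      rw [Finset.prod_insert hi, Finset.sum_insert hi, Nat.cast_mul, hL.mul _ _
        (natCast_ne p (pow_ne_zero _ (hq i)))
        (natCast_ne p (Finset.prod_ne_zero_iff.2 fun j _ => pow_ne_zero _ (hq j))), ih, Nat.cast_pow,
        log_pow hL (natCast_ne p (hq i))]
  exact h Finset.univ

end

/-- **One cell** -/
theorem cell (d δ e τ r : ℕ) : ∃ E : ℕ, 1 ≤ E ∧
    ∀ (p : ℕ) [Fact p.Prime] (A : Type) [NormedField A] [NormedAlgebra ℚ_[p] A] [CharZero A] (L : A → A), Iw p L →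
    ∀ (υ : Type) [Fintype υ] (w : υ → A), Fintype.card υ = τ → ∀ (q : Fin r → ℕ) (e₀ U : ℕ),
    (∀ i, q i ≠ 0) → 1 ≤ e₀ → ¬ p ∣ U → U ≤ p ^ e₀ → ∀ B : Finset ℕ,
    (∀ n ∈ B, ∃ (m : Fin r → ℕ) (g f u' : ℕ), 1 ≤ g ∧ (∏ i, q i ^ m i) * u' = U ∧
      n = ∏ i, q i ^ m i + g * p ^ (e₀ + f) ∧ (g * u' * p ^ f) ^ (2 * E) ≤ p ^ e₀ ∧
      n.Coprime (∏ i, q i ^ m i) ∧ BadW d δ e w (fun _ : Unit => L (n : A))) → B.card ≤ τ + r + 1 := by
  classical
  obtain ⟨E, hE⟩ := win1 Ev (σ := Unit) d δ (e + δ) (τ + r) 1 1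
  refine ⟨E + 1, by omega, fun p _ A _ _ _ L hL υ _ w hυ q e₀ U hq he₀ hU hUp B hB => ?_⟩
  choose! m g f u' h1 h2 h3 h4 h5 h6 using hB
  set β : ℕ → ℕ := fun n => g n * u' n * p ^ f n with hβ
  have hp0 : 0 < p := (Fact.out : p.Prime).pos
  have hU0 : U ≠ 0 := by
    rintro rfl
    exact hU (dvd_zero p)
  have hu0 : ∀ n ∈ B, u' n ≠ 0 := by
    intro n hn h
    have := h2 n hn
    rw [h, mul_zero] at this
    exact hU0 this.symm
  have hβ1 : ∀ n ∈ B, 1 ≤ β n := by
    intro n hn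
    have := h1 n hn
    have := hu0 n hn
    have h7 : 0 < p ^ f n := pow_pos hp0 _
    exact Nat.succ_le_of_lt (Nat.mul_pos (Nat.mul_pos (by omega) (by omega)) h7)
  have hinj : Set.InjOn β B := by
    intro n hn n' hn' hnn
    have hn := Finset.mem_coe.1 hn
    have hn' := Finset.mem_coe.1 hn'
    have h7 : ∀ a ∈ B, a * u' a = U + β a * p ^ e₀ := by
      intro a ha
      have h8 := h3 a ha
      calc a * u' a = (∏ i, q i ^ m a i + g a * p ^ (e₀ + f a)) * u' a := by rw [← h8]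
        _ = (∏ i, q i ^ m a i) * u' a + g a * u' a * p ^ f a * p ^ e₀ := by rw [pow_add]; ring
        _ = _ := by rw [h2 a ha]
    have h8 : n * u' n = n' * u' n' := by
      rw [h7 n hn, h7 n' hn', hnn]
    -- `n * u(n') = n' * u(n)`
    have h9 : n * (∏ i, q i ^ m n' i) = n' * (∏ i, q i ^ m n i) := by
      have h10 := h2 n hn
      have h11 := h2 n' hn'
      have h12 : n * (∏ i, q i ^ m n' i) * (u' n * u' n') = n' * (∏ i, q i ^ m n i) * (u' n * u' n') := by
        calc n * (∏ i, q i ^ m n' i) * (u' n * u' n') = n * u' n * ((∏ i, q i ^ m n' i) * u' n') := by ring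
          _ = n' * u' n' * ((∏ i, q i ^ m n i) * u' n) := by rw [h8, h10, h11]
          _ = _ := by ring
      exact Nat.eq_of_mul_eq_mul_right (Nat.mul_pos (Nat.pos_of_ne_zero (hu0 n hn)) (Nat.pos_of_ne_zero (hu0 n' hn'))) h12
    have h10 : n ∣ n' := (h5 n hn).dvd_of_dvd_mul_right ⟨_, h9.symm⟩
    have h11 : n' ∣ n := (h5 n' hn').dvd_of_dvd_mul_right ⟨_, h9⟩
    exact Nat.dvd_antisymm h10 h11
  rcases Nat.lt_or_ge B.card 2 with hB2 | hB2
  · omega
  obtain ⟨a, ha, b, hb, hab⟩ := Finset.one_lt_card.1 hB2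
  set H : ℕ := B.sup β with hH
  have hHle : ∀ n ∈ B, β n ≤ H := fun n hn => Finset.le_sup (f := β) hn
  have hH2 : 2 ≤ H := by
    have h7 : β a ≠ β b := fun h => hab (hinj (Finset.mem_coe.2 ha) (Finset.mem_coe.2 hb) h)
    have h8 := hβ1 a ha
    have h9 := hβ1 b hb
    have h10 := hHle a ha
    have h11 := hHle b hb
    omega
  obtain ⟨c, hc, hcH⟩ : ∃ c ∈ B, H = β c := Finset.exists_mem_eq_sup B ⟨a, ha⟩ β
  have hHE : (H + 2) ^ E ≤ p ^ e₀ := by
    calc (H + 2) ^ E ≤ (H ^ 2) ^ E := Nat.pow_le_pow_left (by nlinarith) E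
      _ ≤ (H ^ 2) ^ (E + 1) := Nat.pow_le_pow_right (by positivity) (Nat.le_succ E)
      _ = H ^ (2 * (E + 1)) := by rw [← pow_mul]
      _ ≤ p ^ e₀ := by rw [hcH]; exact h4 c hc
  set I : Type := {q : ℕ × ℕ // 1 ≤ q.1 ∧ ¬ p ∣ q.2 ∧ q.2 ≤ p ^ q.1} with hI
  set size : I → ℕ := fun q => p ^ q.1.1 with hsize
  set val : I → ℕ → Unit → A := fun q g _ => lval p A q.1.1 q.1.2 g with hval
  have hinp : Inp Ev size val := fun N Δ H q h1 g hg hgb =>
    log_inp (A := A) N Δ H q.1.1 q.1.2 h1 q.2.2.1 q.2.2.2 g hg hgb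
  set t : I := ⟨(e₀, U), he₀, hU, hUp⟩ with ht
  set w' : υ ⊕ Fin r → A := Sum.elim w (fun i => L (q i : A)) with hw'
  obtain ⟨S, hS, hS'⟩ := hE A I size val hinp H t hHE (υ ⊕ Fin r) w' Finset.univ
    (by rw [Finset.card_univ, Fintype.card_sum, hυ, Fintype.card_fin]) (Dom.univ w')
  have hsub : B.image β ⊆ S := by
    intro x hx
    obtain ⟨n, hn, rfl⟩ := Finset.mem_image.1 hx
    by_contra hcon
    refine hS' (β n) (hβ1 n hn) (hHle n hn) hcon ?_
    obtain ⟨K, k1, k2, k3⟩ := (h6 n hn).mono (w' := w') fun j => Or.inr ⟨Sum.inl j, rfl⟩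
    refine BadW.affine K k1 k2 (fun _ => ⟨1, one_ne_zero, ?_⟩) k3
    have h7 : L (n : A) = L ((∏ i, q i ^ m n i : ℕ) : A) + lval p A e₀ U (β n) := by
      have h8 := log_cell hL (e := e₀) (f := f n) (u := ∏ i, q i ^ m n i) (u' := u' n) (g := g n) he₀
        (by rw [h2 n hn]; exact hU)
      rw [h2 n hn, ← h3 n hn] at h8
      exact h8
    have h8 : L (n : A) - ((1 : K) : A) * val t (β n) () = ∑ i, (m n i : A) * L (q i : A) := by
      rw [h7, log_prod hL q (m n) hq, hval]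
      simp only [ht]
      push_cast
      ring
    rw [h8]
    refine Submodule.sum_mem _ fun i _ => ?_
    have h9 : (m n i : A) * L (q i : A) = ((m n i : ℕ) : K) • L (q i : A) := by
      rw [Algebra.smul_def, map_natCast]
    rw [h9]
    exact Submodule.smul_mem _ _ (Submodule.subset_span (Set.mem_insert_of_mem _ ⟨Sum.inr i, rfl⟩))
  have h7 := Finset.card_le_card hsub
  rw [Finset.card_image_of_injOn hinj] at h7
  omega

end Pool.Agent.L5helper52.NS
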