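import Pool.Agent.L5helper52.NS.Cell

/-!
# `p`-adic logarithms of integers which are `p`-adically close to `S`-units: `O (log log X)` exceptions
-/

set_option autoImplicit false

open Module

namespace Pool.Agent.L5helper52.NS

open Pool.Agent.Y921.PW Pool.Agent.Y916.Om

/-- `n` is prime to the `q i` and `n = u + g p ^ e` for a product `u` of powers of the `q i`, where `g u ≤ p ^ (e / C)`. -/
def Near (p : ℕ) {r : ℕ} (q : Fin r → ℕ) (C n : ℕ) : Prop :=
  (∀ i, n.Coprime (q i)) ∧ ∃ (m : Fin r → ℕ) (g e : ℕ), 1 ≤ g ∧ 1 ≤ e ∧ n = ∏ i, q i ^ m i + g * p ^ e ∧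
    (g * ∏ i, q i ^ m i) ^ C ≤ p ^ e

theorem Near.anti {p r : ℕ} {q : Fin r → ℕ} {C C' n : ℕ} (hq : ∀ i, 2 ≤ q i) (h : Near p q C n) (hC : C' ≤ C) :
    Near p q C' n := by
  obtain ⟨h1, m, g, e, h2, h3, h4, h5⟩ := h
  refine ⟨h1, m, g, e, h2, h3, h4, le_trans (Nat.pow_le_pow_right ?_ hC) h5⟩
  exact Nat.mul_pos h2 (Finset.prod_pos fun i _ => pow_pos (by have := hq i; omega) _)

/-- the parameters of the cell of an exponent -/
theorem cell_index (K e : ℕ) (hK : 1 ≤ K) (he : 1 ≤ e) :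
    e / 2 ^ Nat.log 2 (e / K) < 2 * K ∧ 1 ≤ e / 2 ^ Nat.log 2 (e / K) * 2 ^ Nat.log 2 (e / K) ∧
      K * (e - e / 2 ^ Nat.log 2 (e / K) * 2 ^ Nat.log 2 (e / K)) ≤ e / 2 ^ Nat.log 2 (e / K) * 2 ^ Nat.log 2 (e / K) := by
  set t := Nat.log 2 (e / K) with ht
  set b := e / 2 ^ t with hb
  have h2t : 0 < 2 ^ t := pow_pos (by norm_num) t
  have h1 : b * 2 ^ t + e % 2 ^ t = e := by rw [hb, mul_comm]; exact Nat.div_add_mod e (2 ^ t)
  have h2 : e % 2 ^ t < 2 ^ t := Nat.mod_lt _ h2t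
  have h3 : e < K * 2 ^ (t + 1) := by
    have h4 : e / K < 2 ^ (t + 1) := Nat.lt_pow_succ_log_self (by norm_num) _
    have h5 := (Nat.div_lt_iff_lt_mul (show 0 < K by omega)).1 h4
    rwa [mul_comm] at h5
  have hb1 : b < 2 * K := by
    rw [hb, Nat.div_lt_iff_lt_mul h2t]
    rw [pow_succ] at h3
    nlinarith
  rcases Nat.lt_or_ge e K with hlt | hge
  · have h4 : t = 0 := by rw [ht, Nat.div_eq_of_lt hlt, Nat.log_zero_right]
    refine ⟨hb1, ?_, ?_⟩
    · rw [hb, h4]; simp; omega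
    · rw [hb, h4]; simp
  · have h4 : e / K ≠ 0 := (Nat.div_pos hge (by omega)).ne'
    have h5 : 2 ^ t ≤ e / K := Nat.pow_log_le_self 2 h4
    have h6 : 2 ^ t * K ≤ e := (Nat.le_div_iff_mul_le (by omega)).1 h5
    have h7 : K ≤ b := by
      rw [hb, Nat.le_div_iff_mul_le h2t, mul_comm]
      exact h6
    have h8 : K * 2 ^ t ≤ b * 2 ^ t := Nat.mul_le_mul_right _ h7
    have h9 : e - b * 2 ^ t = e % 2 ^ t := by omega
    refine ⟨hb1, ?_, ?_⟩
    · have : 1 ≤ K * 2 ^ t := Nat.mul_pos (by omega) h2t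
      omega
    · rw [h9]
      exact (Nat.mul_le_mul_left K h2.le).trans h8

theorem loglog16 {X : ℕ} (hX : 16 ≤ X) : 1 ≤ Real.log (Real.log X) := by
  have h2 := Real.log_two_gt_d9
  have h16 : Real.log 16 ≤ Real.log X := Real.log_le_log (by norm_num) (by exact_mod_cast hX)
  have h17 : Real.log (16 : ℝ) = 4 * Real.log 2 := by
    rw [show (16 : ℝ) = 2 ^ 4 by norm_num, Real.log_pow]; norm_num
  have h18 : Real.exp 1 ≤ Real.log X := by
    have := Real.exp_one_lt_d9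
    linarith
  have := Real.log_le_log (Real.exp_pos 1) h18
  rwa [Real.log_exp] at this

theorem natLog_le {m : ℕ} (hm : m ≠ 0) : (Nat.log 2 m : ℝ) * Real.log 2 ≤ Real.log m := by
  rw [← Real.log_pow]
  apply Real.log_le_log (by positivity)
  exact_mod_cast Nat.pow_log_le_self 2 hm

theorem loglog_le {X : ℕ} (hX : 16 ≤ X) : ((Nat.log 2 (Nat.log 2 X) + 1 : ℕ) : ℝ) ≤ 4 * Real.log (Real.log X) := by
  have h1 := loglog16 hX
  have h2 := Real.log_two_gt_d9
  have h2' := Real.log_two_lt_d9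
  have hX0 : X ≠ 0 := by omega
  have hl4 : 4 ≤ Nat.log 2 X := (Nat.le_log_iff_pow_le (by norm_num) hX0).2 (by norm_num; exact hX)
  have h3 := natLog_le hX0
  have h4 := natLog_le (m := Nat.log 2 X) (by omega)
  have hL0 : 0 < Real.log X := Real.log_pos (by exact_mod_cast (show 1 < X by omega))
  have h5 : Real.log (Nat.log 2 X : ℝ) ≤ Real.log (Real.log X) + 1 / 2 := by
    have h6 : (Nat.log 2 X : ℝ) ≤ Real.log X * Real.exp (1 / 2) := by
      have h7 : (3 / 2 : ℝ) ≤ Real.exp (1 / 2) := by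
        have := Real.add_one_le_exp (1 / 2 : ℝ)
        linarith
      have h8 : (Nat.log 2 X : ℝ) ≤ Real.log X * (3 / 2) := by nlinarith
      exact h8.trans (mul_le_mul_of_nonneg_left h7 hL0.le)
    have h7 := Real.log_le_log (by exact_mod_cast (show 0 < Nat.log 2 X by omega)) h6
    rwa [Real.log_mul hL0.ne' (Real.exp_pos _).ne', Real.log_exp] at h7
  push_cast
  nlinarith

/-- **`O (log log X)` exceptions** -/
theorem near_count (d δ e τ r : ℕ) : ∃ C : ℕ, 0 < C ∧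
    ∀ (p : ℕ) [Fact p.Prime] (A : Type) [NormedField A] [NormedAlgebra ℚ_[p] A] [CharZero A] (L : A → A), Iw p L →
    ∀ (υ : Type) [Fintype υ] (w : υ → A), Fintype.card υ = τ → ∀ q : Fin r → ℕ, (∀ i, 2 ≤ q i ∧ ¬ p ∣ q i) →
    ∀ X : ℕ, 16 ≤ X → ∀ B : Finset ℕ,
    (∀ n ∈ B, n ≤ X ∧ Near p q C n ∧ BadW d δ e w (fun _ : Unit => L (n : A))) →
      (B.card : ℝ) ≤ C * Real.log (Real.log X) := by
  classical
  obtain ⟨E, hE1, hE⟩ := cell d δ e τ r
  set K : ℕ := 2 * E * (r + 2) with hK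
  have hK1 : 1 ≤ K := by
    rw [hK]
    exact Nat.mul_pos (by omega) (by omega)
  set C : ℕ := 2 * K + 8 * K * (τ + r + 1) with hC
  refine ⟨C, by omega, fun p _ A _ _ _ L hL υ _ w hυ q hq X hX B hB => ?_⟩
  have hp : p.Prime := Fact.out
  choose! h1 h2 h3 using hB
  choose! c1 m g a g1 a1 hn hC' using h2
  set T : ℕ := Nat.log 2 (Nat.log 2 X) with hT
  set idx : ℕ → ℕ × ℕ := fun n => (a n / 2 ^ Nat.log 2 (a n / K), Nat.log 2 (a n / K)) with hidx
  have hq0 : ∀ i, 0 < q i := fun i => by have := (hq i).1; omega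
  have hmaps : ∀ n ∈ B, idx n ∈ Finset.range (2 * K) ×ˢ Finset.range (T + 1) := by
    intro n hnB
    rw [Finset.mem_product, Finset.mem_range, Finset.mem_range]
    refine ⟨(cell_index K (a n) hK1 (a1 n hnB)).1, ?_⟩
    rw [Nat.lt_succ_iff]
    show Nat.log 2 (a n / K) ≤ T
    refine Nat.log_mono_right ((Nat.div_le_self _ _).trans ?_)
    refine (Nat.le_log_iff_pow_le (by norm_num) (by omega)).2 ?_
    calc 2 ^ a n ≤ p ^ a n := Nat.pow_le_pow_left hp.two_le _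
      _ ≤ g n * p ^ a n := Nat.le_mul_of_pos_left _ (g1 n hnB)
      _ ≤ n := by
        have := hn n hnB
        omega
      _ ≤ X := h1 n hnB
  have hfib : ∀ z ∈ Finset.range (2 * K) ×ˢ Finset.range (T + 1), (B.filter fun n => idx n = z).card ≤ τ + r + 1 := by
    intro z _
    rcases (B.filter fun n => idx n = z).eq_empty_or_nonempty with h0 | ⟨n₀, hn₀⟩
    · rw [h0, Finset.card_empty]; exact Nat.zero_le _
    set e₀ : ℕ := z.1 * 2 ^ z.2 with he₀
    have hzn : ∀ n ∈ B.filter (fun n => idx n = z), n ∈ B ∧ 1 ≤ e₀ ∧ K * (a n - e₀) ≤ e₀ ∧ e₀ ≤ a n := by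
      intro n hnf
      obtain ⟨hnB, hnz⟩ := Finset.mem_filter.1 hnf
      obtain ⟨k1, k2, k3⟩ := cell_index K (a n) hK1 (a1 n hnB)
      have h4 : e₀ = a n / 2 ^ Nat.log 2 (a n / K) * 2 ^ Nat.log 2 (a n / K) := by
        rw [he₀, ← hnz, hidx]
      rw [← h4] at k2 k3
      refine ⟨hnB, k2, k3, ?_⟩
      rw [h4]
      exact Nat.div_mul_le_self _ _
    have he₀1 : 1 ≤ e₀ := (hzn n₀ hn₀).2.1
    set M : Fin r → ℕ := fun i => Nat.log (q i) (p ^ e₀) / K with hM
    have hpe : p ^ e₀ ≠ 0 := pow_ne_zero _ hp.ne_zero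
    have hMK : ∀ i, (q i ^ M i) ^ K ≤ p ^ e₀ := by
      intro i
      rw [← pow_mul]
      exact (Nat.pow_le_pow_right (hq0 i) (Nat.div_mul_le_self _ _)).trans (Nat.pow_log_le_self _ hpe)
    have hMmax : ∀ i j, (q i ^ j) ^ K ≤ p ^ e₀ → j ≤ M i := by
      intro i j hj
      rw [← pow_mul] at hj
      rw [hM]
      simp only
      rw [Nat.le_div_iff_mul_le (by omega)]
      exact (Nat.le_log_iff_pow_le (by have := (hq i).1; omega) hpe).2 hj
    set U : ℕ := ∏ i, q i ^ M i with hU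
    have hUK : U ^ K ≤ (p ^ e₀) ^ r := by
      rw [hU, ← Finset.prod_pow]
      refine (Finset.prod_le_prod' fun i _ => hMK i).trans (le_of_eq ?_)
      rw [Finset.prod_const, Finset.card_univ, Fintype.card_fin]
    have hrK : r ≤ K := by
      rw [hK]
      nlinarith
    have hUp : U ≤ p ^ e₀ := by
      have h4 : U ^ K ≤ (p ^ e₀) ^ K := hUK.trans (Nat.pow_le_pow_right (Nat.pos_of_ne_zero hpe) hrK)
      exact (Nat.pow_le_pow_iff_left (by omega)).1 h4
    have hUd : ¬ p ∣ U := by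
      rw [hU, hp.prime.dvd_finsetProd_iff]
      rintro ⟨i, -, hi⟩
      exact (hq i).2 (hp.dvd_of_dvd_pow hi)
    refine hE p A L hL υ w hυ q e₀ U (fun i => (hq0 i).ne') he₀1 hUd hUp _ fun n hnf => ?_
    obtain ⟨hnB, -, k3, k4⟩ := hzn n hnf
    set u : ℕ := ∏ i, q i ^ m n i with hu
    have hu1 : 1 ≤ u := Finset.prod_pos fun i _ => pow_pos (hq0 i) _
    have hgu1 : 1 ≤ g n * u := Nat.mul_pos (g1 n hnB) hu1
    -- `(g u) ^ K ≤ p ^ e₀`
    have hguK : (g n * u) ^ K ≤ p ^ e₀ := by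
      have h4 : (g n * u) ^ (2 * K) ≤ p ^ a n :=
        (Nat.pow_le_pow_right hgu1 (by omega)).trans (hC' n hnB)
      have h5 : a n ≤ 2 * e₀ := by
        have : a n - e₀ ≤ K * (a n - e₀) := Nat.le_mul_of_pos_left _ (by omega)
        omega
      have h6 : (g n * u) ^ (K * 2) ≤ p ^ (e₀ * 2) := by
        rw [mul_comm K 2, mul_comm e₀ 2]
        exact h4.trans (Nat.pow_le_pow_right hp.pos h5)
      rw [pow_mul (g n * u) K 2, pow_mul p e₀ 2] at h6
      exact (Nat.pow_le_pow_iff_left (by norm_num)).1 h6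
    have hmM : ∀ i, m n i ≤ M i := by
      intro i
      apply hMmax
      refine le_trans (Nat.pow_le_pow_left ?_ K) hguK
      refine le_trans (Nat.le_of_dvd hu1 (Finset.dvd_prod_of_mem _ (Finset.mem_univ i))) ?_
      exact Nat.le_mul_of_pos_left _ (g1 n hnB)
    refine ⟨m n, g n, a n - e₀, ∏ i, q i ^ (M i - m n i), g1 n hnB, ?_, ?_, ?_, ?_, h3 n hnB⟩
    · rw [hU, ← Finset.prod_mul_distrib]
      refine Finset.prod_congr rfl fun i _ => ?_
      rw [← pow_add, Nat.add_sub_cancel' (hmM i)]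
    · rw [Nat.add_sub_cancel' k4]
      exact hn n hnB
    · have h4 : ((g n * (∏ i, q i ^ (M i - m n i)) * p ^ (a n - e₀)) ^ (2 * E)) ^ (r + 2) ≤ (p ^ e₀) ^ (r + 2) := by
        rw [← pow_mul, ← hK, mul_pow, mul_pow]
        have h5 : (g n) ^ K ≤ p ^ e₀ :=
          (Nat.pow_le_pow_left (Nat.le_mul_of_pos_right _ hu1) K).trans hguK
        have h6 : (∏ i, q i ^ (M i - m n i)) ^ K ≤ (p ^ e₀) ^ r := by
          refine le_trans (Nat.pow_le_pow_left ?_ K) hUK
          rw [hU]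
          exact Finset.prod_le_prod' fun i _ => Nat.pow_le_pow_right (hq0 i) (Nat.sub_le _ _)
        have h7 : (p ^ (a n - e₀)) ^ K ≤ p ^ e₀ := by
          rw [← pow_mul, mul_comm (a n - e₀) K]
          exact Nat.pow_le_pow_right hp.pos k3
        calc g n ^ K * (∏ i, q i ^ (M i - m n i)) ^ K * (p ^ (a n - e₀)) ^ K ≤ p ^ e₀ * (p ^ e₀) ^ r * p ^ e₀ :=
              Nat.mul_le_mul (Nat.mul_le_mul h5 h6) h7
          _ = (p ^ e₀) ^ (r + 2) := by ring
      exact (Nat.pow_le_pow_iff_left (by omega)).1 h4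
    · exact Nat.Coprime.prod_right fun i _ => (c1 n hnB i).pow_right _
  have hcard : B.card ≤ (τ + r + 1) * (2 * K * (T + 1)) := by
    have h4 := Finset.card_le_mul_card_image_of_maps_to (s := B) hmaps (τ + r + 1) hfib
    rwa [Finset.card_product, Finset.card_range, Finset.card_range] at h4
  have h5 := loglog_le hX
  have h6 := loglog16 hX
  have h7 : (B.card : ℝ) ≤ (((τ + r + 1) * (2 * K * (T + 1)) : ℕ) : ℝ) := by exact_mod_cast hcard
  have h8 : (((τ + r + 1) * (2 * K * (T + 1)) : ℕ) : ℝ) = (τ + r + 1) * (2 * K) * ((T + 1 : ℕ) : ℝ) := by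
    push_cast
    ring
  rw [h8] at h7
  refine h7.trans ?_
  have h9 : (0 : ℝ) ≤ (τ + r + 1) * (2 * K) := by positivity
  calc ((τ : ℝ) + r + 1) * (2 * K) * ((T + 1 : ℕ) : ℝ) ≤ (τ + r + 1) * (2 * K) * (4 * Real.log (Real.log X)) :=
        mul_le_mul_of_nonneg_left h5 h9
    _ ≤ C * Real.log (Real.log X) := by
        rw [hC]
        push_cast
        have h10 : (0 : ℝ) ≤ 2 * K := by positivity
        nlinarith

end Pool.Agent.L5helper52.NS
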