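import Pool.Agent.L5helper52.NS.Near

/-!
# `p`-adic logarithms of integers which are `p`-adically close to `S`-units: tuples
-/

set_option autoImplicit false

open Module

namespace Pool.Agent.L5helper52.NS

open Pool.Agent.Y921.PW Pool.Agent.Y916.Om

open Classical in
/-- **Tuples** -/
theorem near_tuples (d δ r k : ℕ) : ∀ e τ : ℕ, ∃ C : ℕ, 0 < C ∧
    ∀ (p : ℕ) [Fact p.Prime] (A : Type) [NormedField A] [NormedAlgebra ℚ_[p] A] [CharZero A] (L : A → A), Iw p L →
    ∀ (υ : Type) [Fintype υ] (w : υ → A), Fintype.card υ = τ → ∀ q : Fin r → ℕ, (∀ i, 2 ≤ q i ∧ ¬ p ∣ q i) →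
    ∀ X : ℕ, 16 ≤ X → ∀ N : Finset ℕ, (∀ n ∈ N, n ≤ X ∧ Near p q C n) →
      (((Fintype.piFinset fun _ : Fin k => N).filter fun n =>
        BadW d δ e w (fun i : Fin k => L (n i : A))).card : ℝ) * N.card ≤
          C * Real.log (Real.log X) * (N.card : ℝ) ^ k := by
  induction k with
  | zero =>
    intro e τ
    refine ⟨1, one_pos, fun p _ A _ _ _ L hL υ _ w hυ q hq X hX N hN => ?_⟩
    have h16 := loglog16 hX
    rw [Finset.filter_false_of_mem, Finset.card_empty]
    · rw [Nat.cast_zero, zero_mul]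
      positivity
    · rintro g _ ⟨K, -, -, P, hP0, -, -, hPv⟩
      obtain ⟨a, rfl⟩ : ∃ a, P = MvPolynomial.C a := ⟨_, MvPolynomial.eq_C_of_isEmpty P⟩
      rw [MvPolynomial.aeval_C] at hPv
      apply hP0
      have : a = 0 := hPv
      rw [this, map_zero]
  | succ k ih =>
    intro e τ
    obtain ⟨C₁, hC₁, h₁⟩ := ih e τ
    obtain ⟨C₂, hC₂, h₂⟩ := near_count d δ (e + δ) (τ + k) r
    refine ⟨C₁ + C₂, by omega, fun p _ A _ _ _ L hL υ _ w hυ q hq X hX N hN => ?_⟩
    have h16 := loglog16 hX
    set LL := Real.log (Real.log X) with hLL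
    have hq2 : ∀ i, 2 ≤ q i := fun i => (hq i).1
    have hN1 : ∀ n ∈ N, n ≤ X ∧ Near p q C₁ n := fun n hn => ⟨(hN n hn).1, (hN n hn).2.anti hq2 (Nat.le_add_right _ _)⟩
    have hN2 : ∀ n ∈ N, n ≤ X ∧ Near p q C₂ n := fun n hn => ⟨(hN n hn).1, (hN n hn).2.anti hq2 (Nat.le_add_left _ _)⟩
    set bad₁ := (Fintype.piFinset fun _ : Fin k => N).filter fun n => BadW d δ e w (fun i : Fin k => L (n i : A))
      with hbad₁
    set bad₂ : (Fin k → ℕ) → Finset ℕ := fun g => N.filter fun n =>
      BadW d δ (e + δ) (Sum.elim w fun i : Fin k => L (g i : A)) (fun _ : Unit => L (n : A)) with hbad₂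
    have hsub : ((Fintype.piFinset fun _ : Fin (k + 1) => N).filter fun n =>
        BadW d δ e w (fun i : Fin (k + 1) => L (n i : A))) ⊆
        ((N ×ˢ bad₁).image fun p => (Fin.cons p.1 p.2 : Fin (k + 1) → ℕ)) ∪
        (((Fintype.piFinset fun _ : Fin k => N).sigma bad₂).image
          fun p => (Fin.cons p.2 p.1 : Fin (k + 1) → ℕ)) := by
      intro g hg
      obtain ⟨hg1, hg2⟩ := Finset.mem_filter.1 hg
      rw [Fintype.mem_piFinset] at hg1
      set en : Fin k ⊕ Unit ≃ Fin (k + 1) :=
        { toFun := Sum.elim (fun i => i.succ) (fun _ => 0)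
          invFun := fun p => Fin.cases (Sum.inr ()) (fun i => Sum.inl i) p
          left_inv := by rintro (i | s) <;> simp
          right_inv := by
            intro i
            refine Fin.cases ?_ (fun i => ?_) i <;> simp } with he
      have h4 : (fun j => L ((g (en j) : ℕ) : A)) =
          Sum.elim (fun i : Fin k => L (g i.succ : A)) (fun _ : Unit => L (g 0 : A)) := by
        funext j
        rcases j with i | s
        · rfl
        · rfl
      have h3 : BadW d δ e w (Sum.elim (fun i : Fin k => L (g i.succ : A)) (fun _ : Unit => L (g 0 : A))) := by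
        obtain ⟨K, hK1, hK2, hK3⟩ := hg2
        refine ⟨K, hK1, hK2, ?_⟩
        rw [← h4]
        exact hK3.reindex en
      have htail : (fun i => g i.succ) ∈ Fintype.piFinset fun _ : Fin k => N := by
        rw [Fintype.mem_piFinset]
        exact fun i => hg1 i.succ
      rcases h3.split with h5 | h5
      · refine Finset.mem_union_left _ (Finset.mem_image.2 ⟨(g 0, fun i => g i.succ), ?_, ?_⟩)
        · exact Finset.mem_product.2 ⟨hg1 0, Finset.mem_filter.2 ⟨htail, h5⟩⟩
        · funext i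
          refine Fin.cases ?_ (fun i => ?_) i <;> simp
      · refine Finset.mem_union_right _ (Finset.mem_image.2 ⟨⟨fun i => g i.succ, g 0⟩, ?_, ?_⟩)
        · exact Finset.mem_sigma.2 ⟨htail, Finset.mem_filter.2 ⟨hg1 0, h5⟩⟩
        · funext i
          refine Fin.cases ?_ (fun i => ?_) i <;> simp
    have hb1 : (bad₁.card : ℝ) * N.card ≤ C₁ * LL * (N.card : ℝ) ^ k := h₁ p A L hL υ w hυ q hq X hX N hN1
    have hb2 : ∀ g, ((bad₂ g).card : ℝ) ≤ C₂ * LL := by
      intro g
      refine h₂ p A L hL (υ ⊕ Fin k) (Sum.elim w fun i : Fin k => L (g i : A))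
        (by rw [Fintype.card_sum, hυ, Fintype.card_fin]) q hq X hX (bad₂ g) fun n hn => ?_
      obtain ⟨hn1, hn2⟩ := Finset.mem_filter.1 hn
      exact ⟨(hN2 n hn1).1, (hN2 n hn1).2, hn2⟩
    have h5 : ((((Fintype.piFinset fun _ : Fin (k + 1) => N).filter fun n =>
        BadW d δ e w (fun i : Fin (k + 1) => L (n i : A))).card : ℕ) : ℝ) ≤
        N.card * bad₁.card + (N.card : ℝ) ^ k * (C₂ * LL) := by
      have h6 := (Finset.card_le_card hsub).trans ((Finset.card_union_le _ _).trans
        (add_le_add Finset.card_image_le Finset.card_image_le))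
      rw [Finset.card_product, Finset.card_sigma] at h6
      have h7 : (((((Fintype.piFinset fun _ : Fin (k + 1) => N).filter fun n =>
        BadW d δ e w (fun i : Fin (k + 1) => L (n i : A))).card : ℕ)) : ℝ) ≤
        ((N.card * bad₁.card + ∑ g ∈ Fintype.piFinset (fun _ : Fin k => N), (bad₂ g).card : ℕ) : ℝ) := by
        exact_mod_cast h6
      refine h7.trans ?_
      push_cast
      refine add_le_add le_rfl ?_
      refine (Finset.sum_le_card_nsmul _ _ _ fun g _ => hb2 g).trans (le_of_eq ?_)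
      rw [nsmul_eq_mul, Fintype.card_piFinset]
      simp
    have hc0 : (0 : ℝ) ≤ N.card := Nat.cast_nonneg _
    calc _ ≤ (N.card * bad₁.card + (N.card : ℝ) ^ k * (C₂ * LL)) * N.card := mul_le_mul_of_nonneg_right h5 hc0
      _ = (bad₁.card * N.card) * N.card + (N.card : ℝ) ^ k * (C₂ * LL) * N.card := by ring
      _ ≤ (C₁ * LL * (N.card : ℝ) ^ k) * N.card + (N.card : ℝ) ^ k * (C₂ * LL) * N.card := by
          have := mul_le_mul_of_nonneg_right hb1 hc0
          linarith
      _ = _ := by
          push_cast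
          ring

end Pool.Agent.L5helper52.NS
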